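import Pool.Agent.Helper43_HAM.Base

/-!
# Hamiltonian cycle counts modulo powers of two: statements of the modules
-/

namespace Pool.Agent.HAM

open Equiv
open Pool.Agent.Helper32_HCK (DecisionProblem languageProblem PolyReduces)
open Pool.Agent.Common_CookLevin (CNF LLit formula pad encodeCNF CNFLetter)

/-! ## Part A: maps -/

/-- CYC: multiplication by a transposition splits or joins cycles. -/
def CycStmt : Prop :=
  ∀ (D : Type) [Fintype D] [DecidableEq D] (π : Perm D) (x y : D), x ≠ y →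
    (π.SameCycle x y → cyc (swap x y * π) = cyc π + 1) ∧
    (¬ π.SameCycle x y → cyc (swap x y * π) + 1 = cyc π)

/-- COM: adding an edge changes the number of components by `0` or `1`. -/
def ComStmt : Prop :=
  ∀ (E : Type) [Fintype E] [DecidableEq E] (σ : Perm (Dart E)) (S : Finset E) (e : E), e ∉ S →
    ((conn σ S).r (e, false) (e, true) → comp σ (insert e S) = comp σ S) ∧
    (¬ (conn σ S).r (e, false) (e, true) → comp σ (insert e S) + 1 = comp σ S)

/-- DEF: all states of a plane map are plane (uses CYC, COM). -/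
def DefStmt : Prop :=
  ∀ (E : Type) [Fintype E] [DecidableEq E] (σ : Perm (Dart E)), IsPlane σ → AllPlane σ

/-- PAI: the number of pairs modulo `4` (uses CYC, COM). -/
def PaiStmt : Prop :=
  ∀ (E : Type) [Fintype E] [DecidableEq E] (σ : Perm (Dart E)), AllPlane σ →
    3 ≤ Fintype.card E → Even (Fintype.card E) →
    ((pairs σ : ℕ) : ZMod 4) = 2 * ∑ S : Finset E, ((comp σ S : ℕ) : ZMod 4)

/-- COL: the number of normalised proper `3`-colourings modulo `2`. -/
def ColStmt : Prop :=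
  ∀ (E : Type) [Fintype E] [DecidableEq E] (σ : Perm (Dart E)) (e₀ : E), 2 ≤ Fintype.card E →
    ((colCount σ e₀ : ℕ) : ZMod 2) = ∑ S : Finset E, ((comp σ S : ℕ) : ZMod 2)

/-- HAB: Hamiltonian cycles of the flag graph are pairs. -/
def HabStmt : Prop :=
  ∀ (E : Type) [Fintype E] [DecidableEq E] (σ : Perm (Dart E)), (∀ d, σ d ≠ d) →
    (∀ d, σ d ≠ opp d) → hamCount (gr σ) = pairs σ

/-! ## Part B: properties of the flag graph -/

/-- CN3: the flag graph is `3`-connected. -/
def Cn3Stmt : Prop :=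
  ∀ (E : Type) [Fintype E] [DecidableEq E] [Nonempty E] (σ : Perm (Dart E)), TwoConn σ →
    ThreeConnected (gr σ)

/-- HCB: graphs of hypermaps are cubic and bipartite. -/
def HcbStmt : Prop :=
  ∀ (D : Type) (α σ : Perm D), (∀ d, α d ≠ d) → (∀ d, σ d ≠ d) → (∀ d, α d ≠ σ d) →
    IsCubic (hgr α σ) ∧ IsBip (hgr α σ)

/-- HPL: graphs of plane hypermaps are planar. -/
def HplStmt : Prop :=
  ∀ (D : Type) [Fintype D] (α σ : Perm D), (∀ d, α d ≠ d) → (∀ d, σ d ≠ d) → (∀ d, α d ≠ σ d) →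
    cyc α + cyc σ + cyc (α⁻¹ * σ) = Fintype.card D + 2 → IsPlanar (hgr α σ)

/-- ISO: invariance under isomorphisms. -/
def IsoStmt : Prop :=
  ∀ (V W : Type) (G : SimpleGraph V) (G' : SimpleGraph W), Nonempty (G ≃g G') →
    hamCount G = hamCount G' ∧ (IsCubic G → IsCubic G') ∧ (IsBip G → IsBip G') ∧
    (ThreeConnected G → ThreeConnected G') ∧ (IsPlanar G → IsPlanar G')

/-! ## Part C: cube insertion -/

/-- INH: cube insertion doubles the number of Hamiltonian cycles. -/
def InhStmt : Prop :=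
  ∀ (V : Type) [Finite V] (G : SimpleGraph V) (x : V) (n : Fin 3 → V), Function.Injective n →
    G.neighborSet x = Set.range n → hamCount (ins G x n) = 2 * hamCount G

/-- INC: cube insertion preserves `3`-connectedness. -/
def IncStmt : Prop :=
  ∀ (V : Type) [Finite V] (G : SimpleGraph V) (x : V) (n : Fin 3 → V), Function.Injective n →
    G.neighborSet x = Set.range n → ThreeConnected G → ThreeConnected (ins G x n)

/-- HIN: cube insertion preserves plane hypermaps. -/
def HinStmt : Prop :=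
  ∀ (V : Type) (G : SimpleGraph V) (x : V) (n : Fin 3 → V), HPlane G x n →
    HPlane (ins G x n) (.inl x) (fun i => .inr (i, false))

/-! ## Part D: words -/

/-- STA: static properties of the final state of a closed word. -/
def StaStmt : Prop :=
  ∀ (w : List Op) (a : ℕ), legal w 3 a → 2 ≤ a →
    (fin w a).fr = [] ∧ Static (fin w a).m (fin w a).vs

/-- EXI: the map of a closed word exists. -/
def ExiStmt : Prop :=
  ∀ (m : ℕ) (vs : List (List ℕ × List ℕ)), Static m vs → ∃ σ, Realises m vs σ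

/-- TWO: the map is connected and `2`-connected. -/
def TwoStmt : Prop :=
  ∀ (m : ℕ) (vs : List (List ℕ × List ℕ)) (σ : Perm (Dart (Fin m))), Static m vs →
    Realises m vs σ → TwoConn σ ∧ comp σ Finset.univ = 1

/-- PLN: the map is plane (uses CYC, COM). -/
def PlnStmt : Prop :=
  ∀ (w : List Op) (a : ℕ) (σ : Perm (Dart (Fin (fin w a).m))), legal w 3 a → 2 ≤ a →
    Realises (fin w a).m (fin w a).vs σ →
    cyc σ + cyc (rho σ Finset.univ) = (fin w a).m + 2 * comp σ Finset.univ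

/-- CNT: the number of colourings of the map modulo `2`. -/
def CntStmt : Prop :=
  ∀ (w : List Op) (a : ℕ) (σ : Perm (Dart (Fin (fin w a).m))) (h₀ : 0 < (fin w a).m),
    legal w 3 a → 2 ≤ a → Realises (fin w a).m (fin w a).vs σ →
    ((colCount σ ⟨0, h₀⟩ : ℕ) : ZMod 2) = app (w ++ [.vtx 0 a 0]) Fend [1, 1, 0]

/-- every edge is listed exactly once, and there are no loops -/
def Simp (l : List (ℕ × ℕ)) : Prop :=
  (l.Pairwise fun p q => p ≠ q ∧ p ≠ q.swap) ∧ ∀ p ∈ l, p.1 ≠ p.2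

/-- LGR: the edge list of the flag graph. -/
def LgrStmt : Prop :=
  ∀ (m : ℕ) (vs : List (List ℕ × List ℕ)) (σ : Perm (Dart (Fin m))), Static m vs →
    Realises m vs σ → Simp (elist 0 m vs) ∧ (∀ v, Occurs (elist 0 m vs) v ↔ v < 4 * m) ∧
    ∃ φ : graphOf (elist 0 m vs) ≃g gr σ, ∀ y, vn (nm (φ y).1) (φ y).2 = y.1

/-- LIN: cube insertion for edge lists. -/
def LinStmt : Prop :=
  ∀ (L : List (ℕ × ℕ)) (N : ℕ) (c : Fin 3 → ℕ), (∀ p ∈ L, p.1 ≠ 0 ∧ p.2 ≠ 0) →
    Function.Injective c → (∀ i, c i ≠ 0) → Simp (L ++ tri c) →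
    (∀ v, Occurs (L ++ tri c) v ↔ v < N) →
    (∀ p ∈ L ++ piece N c, p.1 ≠ 0 ∧ p.2 ≠ 0) ∧
    Simp (L ++ piece N c ++ tri ![N, N + 1, N + 2]) ∧
    (∀ v, Occurs (L ++ piece N c ++ tri ![N, N + 1, N + 2]) v ↔ v < N + 6) ∧
    ∀ (x : {v : ℕ // Occurs (L ++ tri c) v}) (n : Fin 3 → {v : ℕ // Occurs (L ++ tri c) v}),
      x.1 = 0 → (∀ i, (n i).1 = c i) → (graphOf (L ++ tri c)).neighborSet x = Set.range n ∧
      ∃ φ : graphOf (L ++ piece N c ++ tri ![N, N + 1, N + 2]) ≃g ins (graphOf (L ++ tri c)) x n,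
        (∀ y, y.1 = 0 → φ y = .inl x) ∧ ∀ y i, y.1 = ![N, N + 1, N + 2] i → φ y = .inr (i, false)

/-- LPE: the order of the edge list is irrelevant. -/
def LpeStmt : Prop :=
  ∀ l l' : List (ℕ × ℕ), l.Perm l' → Simp l → (Simp l' ∧ (∀ v, Occurs l v ↔ Occurs l' v) ∧
    Nonempty (graphOf l ≃g graphOf l'))

/-- COR: **the core theorem**: words give Barnette graphs (uses everything above). -/
def CorStmt : Prop :=
  ∀ (w : List Op) (a j : ℕ) (l : List (ℕ × ℕ)), legal w 3 a → 2 ≤ a → Even (fin w a).m →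
    l.Perm (elist j (fin w a).m (fin w a).vs) →
    IsBarnette l ∧
    (¬ 2 ^ (j + 2) ∣ hamCount (graphOf l) ↔ app (w ++ [.vtx 0 a 0]) Fend [1, 1, 0] = 1)

/-! ## Part E: networks -/

/-- CRS: the crossing gadget. -/
def CrsStmt : Prop :=
  ∀ F, EvenF F → ∀ (l r : List (Fin 3)) (x y : Fin 3),
    app (shift l.length cross) F (l ++ (x :: y :: r)) = F (l ++ (y :: x :: r))

/-- TCO: composition of networks. -/
def TcoStmt : Prop :=
  ∀ (Ω₀ Ω₁ Ω₂ : Type) [Fintype Ω₀] [DecidableEq Ω₀] [Fintype Ω₁] [DecidableEq Ω₁] [Fintype Ω₂]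
    [DecidableEq Ω₂] (π : Ω₁ → Ω₀) (π' : Ω₂ → Ω₁) (U : List (Ω₀ → Fin 3)) (U' : List (Ω₁ → Fin 3))
    (U'' : List (Ω₂ → Fin 3)), Tr π U U' → Tr π' U' U'' → Tr (π ∘ π') U U''

/-- TCX: networks in a context. -/
def TcxStmt : Prop :=
  ∀ (Ω Ω' : Type) [Fintype Ω] [DecidableEq Ω] [Fintype Ω'] [DecidableEq Ω'] (π : Ω' → Ω)
    (U L R : List (Ω → Fin 3)) (U' : List (Ω' → Fin 3)), Tr π U U' →
    Tr π (L ++ (U ++ R)) (L.map (· ∘ π) ++ (U' ++ R.map (· ∘ π)))

/-- TEQ: renaming of the outcomes. -/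
def TeqStmt : Prop :=
  ∀ (Ω Ω' Ω'' : Type) [Fintype Ω] [DecidableEq Ω] [Fintype Ω'] [DecidableEq Ω'] [Fintype Ω'']
    [DecidableEq Ω''] (π : Ω' → Ω) (e : Ω'' ≃ Ω') (U : List (Ω → Fin 3)) (U' : List (Ω' → Fin 3)),
    Tr π U U' → Tr (π ∘ e) U (U'.map (· ∘ e))

/-- TPE: permutation of wires (uses CRS). -/
def TpeStmt : Prop :=
  ∀ (Ω : Type) [Fintype Ω] [DecidableEq Ω] (U U' : List (Ω → Fin 3)), U.Perm U' → 2 ≤ U.length →
    Tr id U U'

/-- CON: constant wires can be created and deleted (uses TCO, TCX, TPE). -/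
def ConStmt : Prop :=
  ∀ (Ω : Type) [Fintype Ω] [DecidableEq Ω] (c c' : List (Fin 3)),
    Tr (id : Ω → Ω) (refs ++ c.map cw) (refs ++ c'.map cw)

/-- GAT: gates (uses TCO, TCX, TPE, CON). -/
def GatStmt : Prop :=
  ∀ (Ω : Type) [Fintype Ω] [DecidableEq Ω] (x y : Ω → Bool),
    Tr id (refs ++ [bit x]) (refs ++ [bit x, bit x]) ∧
    Tr id (refs ++ [bit x]) (refs ++ [bit fun ω => !x ω]) ∧
    Tr id (refs ++ [bit x, bit y]) (refs ++ [bit fun ω => x ω || y ω]) ∧
    Tr id (refs ++ [bit x]) (refs (Ω := Ω)) ∧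
    Tr id (refs (Ω := Ω)) (refs ++ [bit fun _ => true])

/-- GUE: guess a bit (uses TCO, TCX, TPE, CON). -/
def GueStmt : Prop :=
  ∀ (Ω : Type) [Fintype Ω] [DecidableEq Ω],
    Tr (Prod.fst : Ω × Bool → Ω) refs (refs ++ [bit Prod.snd])

/-- FIL: continue only if a bit is true (uses TCO, TCX, TPE, CON). -/
def FilStmt : Prop :=
  ∀ (Ω : Type) [Fintype Ω] [DecidableEq Ω] (g : Ω → Bool),
    Tr (Subtype.val : {ω // g ω = true} → Ω) (refs ++ [bit g]) refs

/-- the bits determine the configuration -/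
def Separating {Ω : Type} (X : List (Ω → Bool)) : Prop :=
  ∀ ω₁ ω₂, (∀ x ∈ X, x ω₁ = x ω₂) → ω₁ = ω₂

/-- BOO: every Boolean function can be computed (uses TCO, TCX, TPE, GAT). -/
def BooStmt : Prop :=
  ∀ (Ω : Type) [Fintype Ω] [DecidableEq Ω] (X : List (Ω → Bool)) (g : Ω → Bool), Separating X →
    Tr id (refs ++ X.map bit) (refs ++ (X.map bit ++ [bit g]))

/-- UNI: universality (uses TCO, TCX, TEQ, TPE, GAT, GUE, FIL, BOO). -/
def UniStmt : Prop :=
  ∀ (Ω Ω' : Type) [Fintype Ω] [DecidableEq Ω] [Fintype Ω'] [DecidableEq Ω'] (π : Ω' → Ω)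
    (X : List (Ω → Bool)) (Y : List (Ω' → Bool)), Separating X →
    Tr π (refs ++ X.map bit) (refs ++ Y.map bit)

/-- NOR: normal form of a word: identity vertices can be added (uses nothing). -/
def NorStmt : Prop :=
  ∀ (w : List Op) (n n' : ℕ), NoRot w → legal w n n' → 2 ≤ n → 2 ≤ n' →
    ∃ J₀, ∀ J, J₀ ≤ J → Even J → ∃ w', Normal w' n n' J ∧
      ∀ F, EvenF F → ∀ l u r : List (Fin 3), u.length = n →
        app (shift l.length w') F (l ++ (u ++ r)) = app (shift l.length w) F (l ++ (u ++ r))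

/-- TIL: every helical system has tiles (uses UNI, CON, TCO, TCX, TPE, NOR). -/
def TilStmt : Prop :=
  ∀ (A : Type) [Fintype A] (H : HSys A), ∃ T : Tiles A, T.Good ∧ T.Sem H

/-! ## Part F: the whole word -/

/-- GLO: the word counts the accepting runs. -/
def GloStmt : Prop :=
  ∀ (A : Type) [Fintype A] (H : HSys A) (T : Tiles A), T.Good → T.Sem H → ∀ (v : List A) (M : ℕ),
    v ≠ [] → app (T.word v M ++ [.vtx 0 2 0]) Fend [1, 1, 0] = ((H.count v M : ℕ) : ZMod 2)

/-- GLE: the word is legal. -/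
def GleStmt : Prop :=
  ∀ (A : Type) [Fintype A] (T : Tiles A), T.Good → ∀ (v : List A) (M : ℕ), v ≠ [] →
    legal (T.word v M) 3 2 ∧ Even (fin (T.word v M) 2).m

/-- the labels of the inputs (`Sum.inl i`) and of the new edges (`Sum.inr j`) of a tile are
replaced by numbers; `f i` is the number of the input `i`, and the new edges have the numbers
`b, b + 1, …` -/
def lab (f : ℕ → ℕ) (b : ℕ) : ℕ ⊕ ℕ → ℕ := Sum.elim f (b + ·)

/-- the vertices of a tile with `n` inputs, symbolically -/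
def tvs (w : List Op) (n : ℕ) : List (List (ℕ ⊕ ℕ) × List (ℕ ⊕ ℕ)) :=
  (run Sum.inr ⟨(List.range n).map Sum.inl, 0, []⟩ w).vs

/-- the vertices of a tile -/
def tile (w : List Op) (n : ℕ) (f : ℕ → ℕ) (b : ℕ) : List (List ℕ × List ℕ) :=
  (tvs w n).map fun v => (v.1.map (lab f b), v.2.map (lab f b))

/-- the list of all vertices, explicitly -/
def Tiles.allVs {A : Type} (T : Tiles A) (v : List A) (M : ℕ) : List (List ℕ × List ℕ) :=
  let b := 4 + T.js
  let c := b + T.J * (v.length + M)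
  let d := c + T.jf + T.jd * v.length
  [([], [0, 1]), ([0], [2, 3])] ++
  (tile T.start 3 (fun i => if i = 2 then 1 else 2 + i) 4 ++
  ((v.zipIdx.flatMap fun x => tile (T.row x.1) T.k (fun i => b + T.J * x.2 - T.k + i)
    (b + T.J * x.2)) ++
  (((List.range M).flatMap fun p => tile T.reg (2 * T.k)
    (fun i => if i < T.k then b + T.J * (v.length + p) - T.k + i
      else b + T.J * (p + 1) - 2 * T.k + (i - T.k)) (b + T.J * (v.length + p))) ++
  (tile T.fin T.k (fun i => c - T.k + i) c ++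
  (((List.range v.length).flatMap fun p => tile T.drop (3 + T.k)
    (fun i => if i < 3 then c + T.jf + T.jd * p - 3 + i
      else b + T.J * (M + p + 1) - 2 * T.k + (i - 3)) (c + T.jf + T.jd * p)) ++
  [([d - 3], [d]), ([d - 2, d - 1], [d + 1]), ([d, d + 1], [])])))))

/-- GRU: the vertices of the word. -/
def GruStmt : Prop :=
  ∀ (A : Type) (T : Tiles A), T.Good → ∀ (v : List A) (M : ℕ), v ≠ [] →
    fin (T.word v M) 2 = ⟨[], 4 + T.js + T.J * (v.length + M) + T.jf + T.jd * v.length + 2,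
      T.allVs v M⟩

/-- PRI: the edge list can be printed (uses GRU). -/
def PriStmt : Prop :=
  ∀ (A : Type) (T : Tiles A) (j : ℕ), T.Good →
    ∃ (hd : List (List LLit)) (atL : A → List (List LLit)) (atR : List (List LLit)),
      TwoPos hd ∧ (∀ a, TwoPos (atL a)) ∧ TwoPos atR ∧
      ∀ (v : List A) (M : ℕ), v ≠ [] →
        (pairsOf (formula hd atL atR (v.map Sum.inl ++ List.replicate M (Sum.inr ())))).Perm
          (elist j (fin (T.word v M) 2).m (fin (T.word v M) 2).vs)

/-! ## Part G: machines -/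

/-- TAB: the computation of a verifier as a helical system. -/
def TabStmt : Prop :=
  ∀ (L : Set (List Bool)) (B : Type) [Fintype B] (V : List Bool × List B → Bool)
    (q : Polynomial ℕ),
    Nonempty (Turing.TM2ComputableInPolyTime (languageProblem L).encPair
      Computability.encodeBool V) →
    ∃ (H : HSys ((Bool ⊕ Unit) ⊕ Unit)) (qT qM : Polynomial ℕ), ∀ w : List Bool,
      pad qT (pad q w) ≠ [] ∧
      H.count (pad qT (pad q w)) (qM.eval (pad qT (pad q w)).length) =
        Nat.card {c : List B // c.length ≤ q.eval w.length ∧ V (w, c) = true}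

/-- SUB: helical systems whose runs are the nonempty sets of at most `K` runs. -/
def SubStmt : Prop :=
  ∀ (A : Type) [Fintype A] (H : HSys A) (K : ℕ), ∃ H' : HSys A, ∀ (v : List A) (M : ℕ), v ≠ [] →
    H'.count v M = ∑ j ∈ Finset.Icc 1 K, (H.count v M).choose j

/-- BIN: divisibility by `2 ^ n` and binomial coefficients. -/
def BinStmt : Prop :=
  ∀ n N : ℕ, (((∑ j ∈ Finset.Icc 1 (2 ^ n - 1), N.choose j : ℕ) : ZMod 2) = 1 ↔ ¬ 2 ^ n ∣ N)

/-- letters of formulas as letters of edge lists -/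
def gl : CNFLetter → GLetter
  | .clause => .edge
  | .pos => .vertex
  | .neg => .vertex
  | .tick => .tick

/-- ENC: formulas with two positive literals in each clause encode edge lists. -/
def EncStmt : Prop :=
  ∀ (A : Type) (hd : List (List LLit)) (atL : A → List (List LLit)) (atR : List (List LLit)),
    TwoPos hd → (∀ a, TwoPos (atL a)) → TwoPos atR → ∀ v : List (A ⊕ Unit),
    (encodeCNF (formula hd atL atR v)).map gl = encodeEdges (pairsOf (formula hd atL atR v))

/-- HRD: hardness (uses COR, TIL, GLO, GLE, PRI, TAB, SUB, BIN, ENC). -/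
def HrdStmt : Prop :=
  ∀ n : ℕ, 2 ≤ n → ∀ k, (k = 2 ∨ k = 2 ^ n) → ∀ L : Set (List Bool),
    InMod k (languageProblem L) → PolyReduces (languageProblem L) (barnette (2 ^ n))

/-! ## Part H: membership -/

/-- `s` is the sequence of the vertices on a Hamiltonian cycle, beginning with the vertex `0`, in
the direction in which the second vertex is smaller than the last one -/
def IsHamSeq (l : List (ℕ × ℕ)) (s : List ℕ) : Prop :=
  s.Nodup ∧ (∀ v, Occurs l v ↔ v ∈ s) ∧ (∀ p ∈ cpairs s, p ∈ l ∨ p.swap ∈ l) ∧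
    s.head? = some 0 ∧ s.getD 1 0 < s.getLastD 0

/-- SEQ: Hamiltonian cycles and sequences of vertices. -/
def SeqStmt : Prop :=
  ∀ l : List (ℕ × ℕ), IsBarnette l → Nat.card {s : List ℕ // IsHamSeq l s} = hamCount (graphOf l)

/-- the word encoding a sequence of numbers -/
def encSeq (s : List ℕ) : List GLetter := s.flatMap fun v => .vertex :: List.replicate v .tick

open Classical in
/-- VER: the verifier. -/
def VerStmt : Prop :=
  ∀ k : ℕ, Nonempty (Turing.TM2ComputableInPolyTime (barnette k).encPair Computability.encodeBool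
    (fun x : (barnette k).Inst × List GLetter =>
      decide (∃ s, x.2 = encSeq s ∧ IsHamSeq x.1.1 s)))

/-- MEM: membership (uses SEQ, VER). -/
def MemStmt : Prop := ∀ k, InMod k (barnette k)

end Pool.Agent.HAM
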