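import Pool.Agent.Helper43_HAM.Stmts2

/-!
# HAM module CLO: `Mod_{2^n} P ⊆ Mod_2 P`
-/

namespace Pool.Agent.HAM.H43

open Pool.Agent.HAM
open Turing Computability
open Pool.Agent.Helper32_HCK (DecisionProblem)
open Pool.Agent.Common_CookLevin (PolyFn polyFn_flatMap)
open Pool.Agent.Helper32_Poly

/-- an automaton reading the certificate -/
theorem dfa_cert (hDFA : DfaStmt) (P : DecisionProblem) (B S : Type) [Fintype B] [Fintype S]
    (δ : S → B → S) (s₀ : S) (acc : S → Bool) :
    Nonempty (TM2ComputableInPolyTime (P.encPair (B := B)) encodeBool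
      (fun x => acc (x.2.foldl δ s₀))) := by
  have : Fintype P.Alph := P.alphFintype
  have h := hDFA (P.Inst × List B) (P.Alph ⊕ B) S P.encPair
    (fun s a => Sum.elim (fun _ => s) (fun b => δ s b) a) s₀ acc
  have e : ∀ x : P.Inst × List B, (P.encPair x).foldl
      (fun s a => Sum.elim (fun _ => s) (fun b => δ s b) a) s₀ = x.2.foldl δ s₀ := by
    intro x
    unfold DecisionProblem.encPair
    rw [List.foldl_append, List.foldl_map, List.foldl_map]
    have h1 : ∀ (l : List P.Alph) (s : S), l.foldl (fun (s : S) (a : P.Alph) =>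
        Sum.elim (fun _ => s) (fun b => δ s b) (Sum.inl a : P.Alph ⊕ B)) s = s := by
      intro l
      induction l with
      | nil => intro s; rfl
      | cons a l ih => intro s; exact ih s
    rw [h1]
    rfl
  simp only [e] at h
  exact h

/-- the number of the track is used -/
def used {K : ℕ} {B : Type} (i : Fin K) (c : List (TL K B)) : Bool :=
  match c.head? with
  | some (.inl j) => decide (i.val ≤ j.val)
  | _ => false

theorem used_poly (hDFA : DfaStmt) (P : DecisionProblem) (B : Type) [Fintype B] (K : ℕ)
    (i : Fin K) : Nonempty (TM2ComputableInPolyTime (P.encPair (B := TL K B)) encodeBool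
      (fun x => used i x.2)) := by
  have h := dfa_cert hDFA P (TL K B) (Option Bool)
    (fun s a => match s with
      | some b => some b
      | none => some (match a with
        | .inl j => decide (i.val ≤ j.val)
        | .inr _ => false)) none (fun s => s.getD false)
  have e : ∀ c : List (TL K B), ((c.foldl (fun (s : Option Bool) (a : TL K B) => match s with
      | some b => some b
      | none => some (match a with
        | .inl j => decide (i.val ≤ j.val)
        | .inr _ => false)) none).getD false) = used i c := by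
    have h1 : ∀ (c : List (TL K B)) (b : Bool), (c.foldl (fun (s : Option Bool) (a : TL K B) =>
        match s with
        | some b => some b
        | none => some (match a with
          | .inl j => decide (i.val ≤ j.val)
          | .inr _ => false)) (some b)) = some b := by
      intro c
      induction c with
      | nil => intro b; rfl
      | cons a c ih => intro b; exact ih b
    intro c
    cases c with
    | nil => rfl
    | cons a c =>
      rw [List.foldl_cons]
      simp only
      rw [h1]
      cases a <;> rfl
  simp only [e] at h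
  exact h

theorem track_poly (P : DecisionProblem) (B : Type) [Fintype B] (K : ℕ) (i : Fin K)
    (V : P.Inst × List B → Bool)
    (hV : Nonempty (TM2ComputableInPolyTime P.encPair encodeBool V)) :
    Nonempty (TM2ComputableInPolyTime (P.encPair (B := TL K B)) encodeBool
      (fun x => V (x.1, track i x.2))) := by
  have : Fintype P.Alph := P.alphFintype
  let g : P.Alph ⊕ TL K B → List (P.Alph ⊕ B) := fun a => match a with
    | .inl a => [.inl a]
    | .inr (.inl _) => []
    | .inr (.inr f) => (f i).toList.map .inr
  have h1 := (polyFn_flatMap g).computable (P.encPair (B := TL K B)) (P.encPair (B := B))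
    (fun x => (x.1, track i x.2)) (by
      intro x
      unfold DecisionProblem.encPair
      rw [List.flatMap_append, List.flatMap_map, List.flatMap_map]
      congr 1
      · simp only [g]
        induction P.enc x.1 with
        | nil => rfl
        | cons a l ih => rw [List.map_cons, List.flatMap_cons, ih]; rfl
      · unfold track
        rw [List.map_flatMap]
        congr 1
        funext a
        cases a <;> rfl)
  obtain ⟨h1⟩ := h1
  obtain ⟨hV⟩ := hV
  exact TM2ComputableInPolyTime.comp h1 hV

/-- **CLO.** -/
theorem clo (hBO2 : Bo2Stmt) (hDFA : DfaStmt) (hCL1 : Cl1Stmt) (hCL2 : Cl2Stmt)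
    (hBIN : BinStmt) : CloStmt := by
  intro n P hP
  obtain ⟨B, hB, V, q, hV, hyes⟩ := hP
  rcases Nat.eq_zero_or_pos n with rfl | hn
  · refine ⟨B, hB, fun _ => false, q, ?_, ?_⟩
    · exact dfa_cert hDFA P B Unit (fun s _ => s) () (fun _ => false)
    · intro x
      rw [hyes x]
      simp
  have hK : 0 < 2 ^ n - 1 := by
    have : 2 ≤ 2 ^ n := by
      calc 2 = 2 ^ 1 := rfl
        _ ≤ 2 ^ n := Nat.pow_le_pow_right (by norm_num) hn
    omega
  set K := 2 ^ n - 1 with hKdef
  let _ : LinearOrder B := LinearOrder.lift' (Fintype.equivFin B) (Fintype.equivFin B).injective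
  obtain ⟨⟨S, hS, δ, s₀, acc, hacc⟩, hinj, htr⟩ := hCL2 K hK B
  let V' : P.Inst × List (TL K B) → Bool := fun x => acc (x.2.foldl δ s₀) &&
    (List.finRange K).all (fun i => !used i x.2 || V (x.1, track i x.2))
  have hV' : Nonempty (TM2ComputableInPolyTime (P.encPair (B := TL K B)) encodeBool V') := by
    refine hBO2 _ _ _ _ _ (fun a b => a && b) (dfa_cert hDFA P (TL K B) S δ s₀ acc) ?_
    have h1 : ∀ L : List (Fin K), Nonempty (TM2ComputableInPolyTime (P.encPair (B := TL K B))
        encodeBool (fun x => L.all (fun i => !used i x.2 || V (x.1, track i x.2)))) := by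
      intro L
      induction L with
      | nil => exact dfa_cert hDFA P (TL K B) Unit (fun s _ => s) () (fun _ => true)
      | cons i L ih =>
        simp only [List.all_cons]
        refine hBO2 _ _ _ _ _ (fun a b => a && b) ?_ ih
        exact hBO2 _ _ _ _ _ (fun a b => !a || b) (used_poly hDFA P B K i)
          (track_poly P B K i V hV)
    exact h1 _
  refine ⟨TL K B, inferInstance, V', q + 1, hV', ?_⟩
  intro x
  rw [hyes x, ← hBIN]
  set N := q.eval (P.enc x).length with hN
  have hN' : (q + 1).eval (P.enc x).length = N + 1 := by simp [hN]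
  let A : Set (List B) := {c | c.length ≤ N ∧ V (x, c) = true}
  have hAfin : A.Finite := (List.finite_length_le B N).subset (fun c hc => hc.1)
  have hcard : Nat.card {c : List B // c.length ≤ N ∧ V (x, c) = true} = A.ncard := rfl
  rw [hcard, ← hCL1 (List B) A K hAfin]
  have h2 : ∀ m : ℕ, ((m : ℕ) : ZMod 2) = 1 ↔ ¬ 2 ∣ m := by
    intro m
    rw [← Nat.cast_one, ZMod.natCast_eq_natCast_iff]
    unfold Nat.ModEq
    omega
  rw [h2, hN']
  have husedT : ∀ l : List (List B), 1 ≤ l.length → l.length ≤ K → ∀ i : Fin K,
      used i (encT K hK B l) = decide (i.val < l.length) := by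
    intro l h1 h2 i
    have e : used i (encT K hK B l) = decide (i.val ≤ (l.length - 1) % K) := rfl
    rw [e, Nat.mod_eq_of_lt (by omega)]
    congr 1
    apply propext
    omega
  have hbij : Nat.card {l : List (List B) // l.Pairwise (· < ·) ∧ (∀ c ∈ l, c ∈ A) ∧
      1 ≤ l.length ∧ l.length ≤ K} =
      Nat.card {c : List (TL K B) // c.length ≤ N + 1 ∧ V' (x, c) = true} := by
    refine Nat.card_congr (Equiv.ofBijective (fun l => ⟨encT K hK B l.1, ?_, ?_⟩) ⟨?_, ?_⟩)
    · exact ((htr l.1 l.2.2.2.1 l.2.2.2.2).2 N).2 (fun c hc => (l.2.2.1 c hc).1)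
    · obtain ⟨l, hl1, hl2, hl3, hl4⟩ := l
      change (acc ((encT K hK B l).foldl δ s₀) && (List.finRange K).all
        (fun i => !used i (encT K hK B l) || V (x, track i (encT K hK B l)))) = true
      rw [Bool.and_eq_true, List.all_eq_true]
      refine ⟨(hacc _).2 ⟨l, hl3, hl4, hl1, rfl⟩, fun i _ => ?_⟩
      rw [husedT l hl3 hl4, (htr l hl3 hl4).1 i]
      by_cases hi : i.val < l.length
      · have h3 : l.getD i.val [] ∈ l := by
          rw [List.getD_eq_getElem _ _ hi]
          exact List.getElem_mem hi
        simp only [hi, decide_true, Bool.not_true, Bool.false_or]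
        exact (hl2 _ h3).2
      · simp [hi]
    · rintro ⟨l, hl⟩ ⟨l', hl'⟩ h
      exact Subtype.ext (hinj l l' hl.2.2.1 hl.2.2.2 hl'.2.2.1 hl'.2.2.2
        (congrArg Subtype.val h))
    · rintro ⟨c, hc1, hc2⟩
      have hc3 : (acc (c.foldl δ s₀) && (List.finRange K).all
        (fun i => !used i c || V (x, track i c))) = true := hc2
      rw [Bool.and_eq_true, List.all_eq_true] at hc3
      obtain ⟨l, hl1, hl2, hl3, rfl⟩ := (hacc _).1 hc3.1
      refine ⟨⟨l, hl3, ?_, hl1, hl2⟩, rfl⟩
      intro b hb
      refine ⟨((htr l hl1 hl2).2 N).1 hc1 b hb, ?_⟩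
      obtain ⟨i, hi, rfl⟩ := List.getElem_of_mem hb
      have h3 := hc3.2 ⟨i, by omega⟩ (List.mem_finRange _)
      rw [husedT l hl1 hl2, (htr l hl1 hl2).1] at h3
      simp only [hi, decide_true, Bool.not_true, Bool.false_or] at h3
      rw [List.getD_eq_getElem _ _ hi] at h3
      exact h3
  rw [hbij]

end Pool.Agent.HAM.H43
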