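import Pool.Agent.Helper43_HAM.Stmts

/-!
# HAM module COR: the core theorem
-/

namespace Pool.Agent.HAM.H43

open Equiv
open Pool.Agent.HAM

theorem cyc_flip (E : Type) [Fintype E] [DecidableEq E] :
    cyc (flip (Finset.univ : Finset E)) = Fintype.card E := by
  have h : ∀ x y : Dart E, (flip (Finset.univ : Finset E)).SameCycle x y ↔ x.1 = y.1 := by
    intro x y
    constructor
    · rintro ⟨k, rfl⟩
      have hk : ∀ k : ℤ, (((flip (Finset.univ : Finset E)) ^ k) x).1 = x.1 := by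
        intro k
        induction k using Int.induction_on with
        | zero => rfl
        | succ n ih =>
          have : ∀ z : Dart E, (flip (Finset.univ : Finset E) z).1 = z.1 := fun z => rfl
          rw [add_comm, zpow_one_add, Perm.mul_apply, this, ih]
        | pred n ih =>
          have : ∀ z : Dart E, ((flip (Finset.univ : Finset E))⁻¹ z).1 = z.1 := fun z => rfl
          rw [sub_eq_neg_add, zpow_add, Perm.mul_apply, zpow_neg_one, this, ih]
      exact (hk k).symm
    · intro hxy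
      by_cases hb : x.2 = y.2
      · have : x = y := Prod.ext hxy hb
        rw [this]
      · refine ⟨1, ?_⟩
        rw [zpow_one]
        refine Prod.ext hxy ?_
        change (if x.1 ∈ Finset.univ then !x.2 else x.2) = y.2
        rw [if_pos (Finset.mem_univ _)]
        cases hx : x.2 <;> cases hy : y.2 <;> simp_all
  unfold cyc
  rw [← Nat.card_eq_fintype_card]
  refine Nat.card_congr ?_
  refine ⟨Quotient.lift (fun x : Dart E => x.1) (fun x y hxy => (h x y).1 hxy),
    fun e => Quotient.mk _ (e, false), ?_, fun e => rfl⟩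
  intro q
  induction q using Quotient.inductionOn with
  | h x => exact Quotient.sound ((h _ _).2 rfl)

theorem flip_univ_apply {E : Type} [Fintype E] [DecidableEq E] (d : Dart E) :
    flip (Finset.univ : Finset E) d = opp d := by
  change (d.1, if d.1 ∈ Finset.univ then !d.2 else d.2) = _
  rw [if_pos (Finset.mem_univ _)]
  rfl

/-- Theorem A -/
theorem thmA (hPAI : PaiStmt) (hCOL : ColStmt) (hHAB : HabStmt) (E : Type) [Fintype E]
    [DecidableEq E] (σ : Perm (Dart E)) (hp : AllPlane σ) (h1 : ∀ d, σ d ≠ d)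
    (h2 : ∀ d, σ d ≠ opp d) (h3 : 3 ≤ Fintype.card E) (h4 : Even (Fintype.card E)) (e₀ : E) :
    (¬ 4 ∣ hamCount (gr σ)) ↔ ((colCount σ e₀ : ℕ) : ZMod 2) = 1 := by
  have a := hPAI E σ hp h3 h4
  have b := hCOL E σ e₀ (by omega)
  rw [← hHAB E σ h1 h2] at a
  rw [← Nat.cast_sum] at a b
  have a' : ((hamCount (gr σ) : ℕ) : ZMod 4) = ((2 * ∑ S : Finset E, comp σ S : ℕ) : ZMod 4) := by
    rw [a]; push_cast; ring
  rw [ZMod.natCast_eq_natCast_iff] at a' b
  generalize (∑ S : Finset E, comp σ S) = C at a' b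
  generalize colCount σ e₀ = M at b ⊢
  generalize hamCount (gr σ) = h at a' ⊢
  have c : ((M : ℕ) : ZMod 2) = 1 ↔ M % 2 = 1 := by
    rw [← Nat.cast_one, ZMod.natCast_eq_natCast_iff]
    rfl
  rw [c]
  unfold Nat.ModEq at a' b
  omega

theorem hplane_props (hHCB : HcbStmt) (hHPL : HplStmt) (hISO : IsoStmt) {V : Type}
    (G : SimpleGraph V) (x : V) (n : Fin 3 → V) (h : HPlane G x n) :
    IsCubic G ∧ IsBip G ∧ IsPlanar G := by
  obtain ⟨D, _, α, σ, d₀, φ, -, -, -, -, h1, h2, h3, h4⟩ := h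
  have i := hISO _ _ (hgr α σ) G ⟨φ.symm⟩
  obtain ⟨j1, j2⟩ := hHCB D α σ h1 h2 h3
  exact ⟨i.2.1 j1, i.2.2.1 j2, i.2.2.2.2 (hHPL D α σ h1 h2 h3 h4)⟩

theorem vn_inj {m : ℕ} {x y : Dart (Fin m)} {s t : Bool} (h : vn (nm x) s = vn (nm y) t) :
    x = y ∧ s = t := by
  obtain ⟨x, b⟩ := x
  obtain ⟨y, c⟩ := y
  unfold vn nm at h
  simp only at h
  have hb : b.toNat ≤ 1 := Bool.toNat_le b
  have hc : c.toNat ≤ 1 := Bool.toNat_le c
  have hs : s.toNat ≤ 1 := Bool.toNat_le s
  have ht : t.toNat ≤ 1 := Bool.toNat_le t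
  have e1 : x.val = y.val := by omega
  have e2 : b.toNat = c.toNat := by omega
  have e3 : s.toNat = t.toNat := by omega
  refine ⟨Prod.ext (Fin.ext e1) ?_, ?_⟩
  · cases b <;> cases c <;> simp_all
  · cases s <;> cases t <;> simp_all

theorem base_ne (m : ℕ) (vs : List (List ℕ × List ℕ)) : ∀ p ∈ base m vs, p.1 ≠ 0 ∧ p.2 ≠ 0 := by
  intro p hp
  unfold base at hp
  rw [List.mem_filter] at hp
  refine ⟨by simpa using hp.2, ?_⟩
  have h2 : ∃ x : ℕ × Bool, p.2 = vn x true := by
    rcases List.mem_append.1 hp.1 with h | h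
    · obtain ⟨e, -, he⟩ := List.mem_flatMap.1 h
      simp only [ee, List.mem_cons, List.not_mem_nil, or_false] at he
      rcases he with rfl | rfl | rfl | rfl
      · exact ⟨_, rfl⟩
      · exact ⟨_, rfl⟩
      · exact ⟨_, rfl⟩
      · exact ⟨_, rfl⟩
    · obtain ⟨v, -, hv⟩ := List.mem_flatMap.1 h
      obtain ⟨q, -, rfl⟩ := List.mem_map.1 hv
      exact ⟨_, rfl⟩
  obtain ⟨x, hx⟩ := h2
  rw [hx]
  simp [vn]

theorem cur_inj (m : ℕ) : ∀ j, Function.Injective (cur m j)
  | 0 => by
    intro a b h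
    fin_cases a <;> fin_cases b <;> simp_all [cur]
  | j + 1 => by
    intro a b h
    fin_cases a <;> fin_cases b <;> simp_all [cur]

theorem cur_ne (m : ℕ) (hm : 0 < m) : ∀ j i, cur m j i ≠ 0
  | 0, i => by fin_cases i <;> simp [cur]
  | j + 1, i => by
    fin_cases i
    · change 4 * m + 6 * j ≠ 0
      omega
    · change 4 * m + 6 * j + 1 ≠ 0
      omega
    · change 4 * m + 6 * j + 2 ≠ 0
      omega

theorem occ_tri (L : List (ℕ × ℕ)) (c : Fin 3 → ℕ) : Occurs (L ++ tri c) 0 ∧
    ∀ i, Occurs (L ++ tri c) (c i) := by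
  refine ⟨⟨(0, c 0), by simp [tri], Or.inl rfl⟩, fun i => ⟨(0, c i), ?_, Or.inr rfl⟩⟩
  fin_cases i <;> simp [tri]

/-- **COR.** -/
theorem cor (hDEF : DefStmt) (hPAI : PaiStmt) (hCOL : ColStmt) (hHAB : HabStmt) (hCN3 : Cn3Stmt)
    (hHCB : HcbStmt) (hHPL : HplStmt) (hISO : IsoStmt) (hINH : InhStmt) (hINC : IncStmt)
    (hHIN : HinStmt) (hSTA : StaStmt) (hEXI : ExiStmt) (hTWO : TwoStmt) (hPLN : PlnStmt)
    (hCNT : CntStmt) (hLGR : LgrStmt) (hLIN : LinStmt) (hLPE : LpeStmt) : CorStmt := by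
  intro w a j l hw ha hm hl
  obtain ⟨-, hst⟩ := hSTA w a hw ha
  have hpln := hPLN w a
  have hcnt := hCNT w a
  generalize (fin w a).m = m at *
  generalize (fin w a).vs = vs at *
  obtain ⟨σ, hσ⟩ := hEXI m vs hst
  obtain ⟨htc, hc1⟩ := hTWO m vs σ hst hσ
  have hm4 : 4 ≤ m := by
    have h1 : 3 ∈ vs.flatMap Prod.snd := by
      have h2 := hst.second
      rw [List.mem_flatMap]
      exact ⟨_, List.mem_of_getElem? h2, by simp⟩
    rw [hst.outs, List.mem_range] at h1
    omega
  have : Nonempty (Fin m) := ⟨⟨0, by omega⟩⟩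
  have hpl : IsPlane σ := by
    refine ⟨hc1, ?_⟩
    have := hpln σ hw ha hσ
    rw [Fintype.card_fin, this, hc1]
  have hs1 : ∀ d, σ d ≠ d := htc.1
  have hs2 : ∀ d, σ d ≠ opp d := fun d h => htc.2.1 d (h ▸ ⟨1, by simp⟩)
  have hA := thmA hPAI hCOL hHAB (Fin m) σ (hDEF _ σ hpl) hs1 hs2 (by rw [Fintype.card_fin]; omega)
    (by rwa [Fintype.card_fin]) ⟨0, by omega⟩
  rw [hcnt σ (by omega) hw ha hσ] at hA
  -- induction on the number of cube insertions
  have key : ∀ i, Simp (elist i m vs) ∧ (∀ v, Occurs (elist i m vs) v ↔ v < 4 * m + 6 * i) ∧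
      (∀ p ∈ base m vs ++ pieces m i, p.1 ≠ 0 ∧ p.2 ≠ 0) ∧
      ThreeConnected (graphOf (elist i m vs)) ∧
      hamCount (graphOf (elist i m vs)) = 2 ^ i * hamCount (gr σ) ∧
      ∃ (x : {v : ℕ // Occurs (elist i m vs) v}) (n : Fin 3 → {v : ℕ // Occurs (elist i m vs) v}),
        x.1 = 0 ∧ (∀ k, (n k).1 = cur m i k) ∧ HPlane (graphOf (elist i m vs)) x n := by
    intro i
    induction i with
    | zero =>
      obtain ⟨g1, g2, φ, hφ⟩ := hLGR m vs σ hst hσ
      have iso := hISO _ _ _ _ ⟨φ⟩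
      have iso' := hISO _ _ _ _ ⟨φ.symm⟩
      refine ⟨g1, by simpa using g2, ?_, iso'.2.2.2.1 (hCN3 _ σ htc), by rw [iso.1]; simp, ?_⟩
      · intro p hp
        rw [pieces, List.append_nil] at hp
        exact base_ne m vs p hp
      · have hocc := occ_tri (base m vs ++ pieces m 0) (cur m 0)
        refine ⟨⟨0, hocc.1⟩, fun k => ⟨cur m 0 k, hocc.2 k⟩, rfl, fun k => rfl, ?_⟩
        have hcalc : ∀ (y : {v : ℕ // Occurs (elist 0 m vs) v}) (d : Dart (Fin m)) (s : Bool),
            y.1 = vn (nm d) s → φ y = (d, s) := by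
          intro y d s hy
          have h1 := hφ y
          rw [hy] at h1
          have h2 := vn_inj h1
          exact Prod.ext h2.1 h2.2
        have hσ0 : σ (⟨0, by omega⟩, false) = (⟨1, by omega⟩, false) := by
          rw [hσ]
          refine ⟨_, List.mem_of_getElem? hst.first, ?_⟩
          simp [cl, cpairs, nm]
        refine ⟨Dart (Fin m), inferInstance, flip Finset.univ, σ, (⟨0, by omega⟩, false), φ,
          hcalc _ _ _ rfl, hcalc _ _ _ rfl, ?_, ?_, ?_, hs1, ?_, ?_⟩
        · refine hcalc _ _ _ ?_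
          rw [flip_univ_apply]
          rfl
        · rw [hσ0]
          exact hcalc _ _ _ rfl
        · intro d
          rw [flip_univ_apply]
          intro h
          have := congrArg Prod.snd h
          simp [opp] at this
        · intro d
          rw [flip_univ_apply]
          exact fun h => hs2 d h.symm
        · have e1 : (flip (Finset.univ : Finset (Fin m)))⁻¹ * σ = rho σ Finset.univ := rfl
          rw [e1, cyc_flip, add_assoc, hpl.2]
          simp only [Fintype.card_fin, Fintype.card_prod, Fintype.card_bool]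
          omega
    | succ i ih =>
      obtain ⟨f1, f2, f3, f4, f5, x, n, hx, hn, hH⟩ := ih
      obtain ⟨k1, k2, k3, k4⟩ := hLIN (base m vs ++ pieces m i) (4 * m + 6 * i) (cur m i) f3
        (cur_inj m i) (cur_ne m (by omega) i) f1 f2
      obtain ⟨k5, φ, k6, k7⟩ := k4 x n hx hn
      have hfin : Finite {v : ℕ // Occurs (elist i m vs) v} := by
        have : {v : ℕ | Occurs (elist i m vs) v} ⊆ Set.Iio (4 * m + 6 * i) :=
          fun v hv => (f2 v).1 hv
        exact (Set.finite_Iio _).subset this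
      have hfin' : Finite {v : ℕ // Occurs (base m vs ++ pieces m i ++ tri (cur m i)) v} := hfin
      have hninj : Function.Injective n := by
        intro a b hab
        apply cur_inj m i
        rw [← hn, ← hn, hab]
      have hlist : elist (i + 1) m vs = base m vs ++ pieces m i ++ piece (4 * m + 6 * i) (cur m i)
          ++ tri ![4 * m + 6 * i, 4 * m + 6 * i + 1, 4 * m + 6 * i + 2] := by
        unfold elist
        rw [pieces]
        simp only [List.append_assoc]
        rfl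
      have iso := hISO _ _ _ _ ⟨φ⟩
      have iso' := hISO _ _ _ _ ⟨φ.symm⟩
      have hinh := hINH _ (graphOf (base m vs ++ pieces m i ++ tri (cur m i))) x n hninj k5
      have hinc := hINC _ (graphOf (base m vs ++ pieces m i ++ tri (cur m i))) x n hninj k5 f4
      have hhin := hHIN _ _ x n hH
      rw [hlist]
      refine ⟨k2, ?_, ?_, iso'.2.2.2.1 hinc, ?_, ?_⟩
      · intro v
        rw [k3]
        rw [show 4 * m + 6 * (i + 1) = 4 * m + 6 * i + 6 by ring]
      · intro p hp
        rw [pieces, ← List.append_assoc] at hp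
        exact k1 p hp
      · rw [iso.1, hinh]
        change 2 * hamCount (graphOf (elist i m vs)) = _
        rw [f5]
        ring
      · have hocc := occ_tri (base m vs ++ pieces m i ++ piece (4 * m + 6 * i) (cur m i))
          ![4 * m + 6 * i, 4 * m + 6 * i + 1, 4 * m + 6 * i + 2]
        refine ⟨⟨0, hocc.1⟩, fun k => ⟨_, hocc.2 k⟩, rfl, fun k => ?_, ?_⟩
        · fin_cases k <;> rfl
        · obtain ⟨D, hD, α, τ, d₀, ψ, e1, e2, e3, e4, e5⟩ := hhin
          refine ⟨D, hD, α, τ, d₀, φ.trans ψ, ?_, ?_, ?_, ?_, e5⟩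
          · exact (congrArg ψ (k6 _ rfl)).trans e1
          · exact (congrArg ψ (k7 _ 0 rfl)).trans e2
          · exact (congrArg ψ (k7 _ 1 rfl)).trans e3
          · exact (congrArg ψ (k7 _ 2 rfl)).trans e4
  obtain ⟨f1, f2, -, f4, f5, x, n, -, -, hH⟩ := key j
  obtain ⟨g1, g2, g3⟩ := hplane_props hHCB hHPL hISO _ _ _ hH
  obtain ⟨q1, q2, ⟨φ⟩⟩ := hLPE _ _ hl.symm f1
  have iso := hISO _ _ _ _ ⟨φ⟩
  refine ⟨⟨?_, q1.1, q1.2, iso.2.1 g1, iso.2.2.1 g2, iso.2.2.2.1 f4, iso.2.2.2.2 g3⟩, ?_⟩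
  · intro v hv u hu
    rw [← q2, f2] at hv ⊢
    omega
  · rw [← iso.1, f5, ← hA]
    constructor
    · intro h h'
      apply h
      rw [pow_add]
      exact mul_dvd_mul_left _ h'
    · intro h h'
      apply h
      rw [pow_add] at h'
      exact Nat.dvd_of_mul_dvd_mul_left (by positivity) h'

end Pool.Agent.HAM.H43
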