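import Pool.Agent.Helper43_HAM.Stmts

/-!
# HAM module HRD: hardness
-/

namespace Pool.Agent.HAM.H43

open Equiv
open Pool.Agent.HAM
open Pool.Agent.Helper32_HCK (DecisionProblem languageProblem PolyReduces)
open Pool.Agent.Common_CookLevin

theorem zmod2_one_iff (N : ℕ) : ((N : ℕ) : ZMod 2) = 1 ↔ ¬ 2 ∣ N := by
  rw [← Nat.cast_one, ZMod.natCast_eq_natCast_iff]
  unfold Nat.ModEq
  omega

/-- **HRD.** -/
theorem hrd (hCOR : CorStmt) (hTIL : TilStmt) (hGLO : GloStmt) (hGLE : GleStmt) (hPRI : PriStmt)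
    (hTAB : TabStmt) (hSUB : SubStmt) (hBIN : BinStmt) (hENC : EncStmt) : HrdStmt := by
  intro n hn k hk L hL
  obtain ⟨B, hB, V, q, hV, hyes⟩ := hL
  obtain ⟨H, qT, qM, hH⟩ := hTAB L B V q hV
  obtain ⟨H', hH'⟩ : ∃ H' : HSys ((Bool ⊕ Unit) ⊕ Unit), ∀ w : List Bool,
      ((H'.count (pad qT (pad q w)) (qM.eval (pad qT (pad q w)).length) : ℕ) : ZMod 2) = 1 ↔
        w ∈ L := by
    rcases hk with rfl | rfl
    · refine ⟨H, fun w => ?_⟩
      rw [(hH w).2, zmod2_one_iff]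
      exact (hyes w).symm
    · obtain ⟨H', h⟩ := hSUB _ H (2 ^ n - 1)
      refine ⟨H', fun w => ?_⟩
      rw [h _ _ (hH w).1, (hH w).2, hBIN]
      exact (hyes w).symm
  obtain ⟨T, hg, hs⟩ := hTIL _ H'
  obtain ⟨hd, atL, atR, t1, t2, t3, hpr⟩ := hPRI _ T (n - 2) hg
  have hn2 : n - 2 + 2 = n := by omega
  have key : ∀ w : List Bool,
      IsBarnette (pairsOf (formula hd atL atR (pad qM (pad qT (pad q w))))) ∧
      (¬ 2 ^ n ∣ hamCount (graphOf (pairsOf (formula hd atL atR (pad qM (pad qT (pad q w)))))) ↔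
        w ∈ L) := by
    intro w
    have hne := (hH w).1
    have h1 := hGLE _ T hg (pad qT (pad q w)) (qM.eval (pad qT (pad q w)).length) hne
    have h2 := hpr (pad qT (pad q w)) (qM.eval (pad qT (pad q w)).length) hne
    have h3 := hCOR _ 2 (n - 2) _ h1.1 le_rfl h1.2 h2
    rw [hGLO _ H' T hg hs _ _ hne, hH' w, hn2] at h3
    exact h3
  let f : List Bool → (barnette (2 ^ n)).Inst := fun w => ⟨_, (key w).1⟩
  refine ⟨f, ?_, fun w => (key w).2.symm⟩
  have h1 := ((((polyFn_pad (A := Bool) q).comp (polyFn_pad qT)).comp (polyFn_pad qM)).comp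
    (polyFn_formula hd atL atR)).comp (polyFn_flatMap fun a => [gl a])
  refine h1.computable (languageProblem L).enc (barnette (2 ^ n)).enc f (fun w => ?_)
  have h2 : ∀ u : List CNFLetter, u.flatMap (fun a => [gl a]) = u.map gl := by
    intro u
    induction u with
    | nil => rfl
    | cons a u ih => rw [List.flatMap_cons, ih]; rfl
  rw [h2, hENC _ hd atL atR t1 t2 t3]
  rfl

/-- completeness for the class `Mod_k P` -/
def ModComplete (k : ℕ) (P : DecisionProblem) : Prop :=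
  InMod k P ∧ ∀ L : Set (List Bool), InMod k (languageProblem L) → PolyReduces (languageProblem L) P

theorem main (hHRD : HrdStmt) (hMEM : MemStmt) (n : ℕ) (hn : 2 ≤ n) :
    ModComplete (2 ^ n) (barnette (2 ^ n)) ∧
    ∀ L : Set (List Bool), InMod 2 (languageProblem L) →
      PolyReduces (languageProblem L) (barnette (2 ^ n)) :=
  ⟨⟨hMEM _, hHRD n hn _ (Or.inr rfl)⟩, hHRD n hn _ (Or.inl rfl)⟩

end Pool.Agent.HAM.H43
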