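import Pool.Agent.Helper43_HAM.Main
import Pool.Agent.Helper43_HAM.Cor
import Pool.Agent.Helper43_HAM.Hrd
import Pool.Agent.Helper43_HAM.Clo
import Pool.Agent.Helper20_HAM.Enc
import Pool.Agent.Helper20_HAM.Teq
import Pool.Agent.Helper25_HAM.Gle
import Pool.Agent.Helper25_HAM.Nor
import Pool.Agent.Helper26_HAM.Gat
import Pool.Agent.Helper37_HAM.ConGue
import Pool.Agent.Helper39_HAM.Tco
import Pool.Agent.Helper41_HAM.Uni
import Pool.Agent.Helper46_HAM.Hab
import Pool.Agent.Helper47_HAM.Hpl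
import Pool.Agent.Helper47_HAM.Tpe
import Pool.Agent.Helper4_HAM.Ver
import Pool.Agent.Helper4_HAM.Til
import Pool.Agent.Helper50_HAM.Com
import Pool.Agent.Helper50_HAM.Cyc
import Pool.Agent.Helper51_HAM.Seq
import Pool.Agent.Helper51_HAM.Mem
import Pool.Agent.Helper59_HAM.Col
import Pool.Agent.Helper63_HAM.BO2
import Pool.Agent.Helper63_HAM.DFA
import Pool.Agent.Helper65_HAM.Def
import Pool.Agent.Helper66_HAM.Gru
import Pool.Agent.Helper66_HAM.Tab
import Pool.Agent.Helper72_HAM.Exi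
import Pool.Agent.Helper72_HAM.Two
import Pool.Agent.Helper75_HAM.Cnt
import Pool.Agent.Helper75_HAM.Lgr
import Pool.Agent.Helper7_HAM.Iso
import Pool.Agent.Helper81_HAM.Bin
import Pool.Agent.Helper9_HAM.Crs
import Pool.Agent.Helper64_HAM.Boo
import Pool.Agent.Helper64_HAM.Hin
import Pool.Agent.Helper64_HAM.Sta
import Pool.Agent.Helper27_HAM.Inh
import Pool.Agent.Helper27_HAM.Pln
import Pool.Agent.Helper38_HAM.Cl1
import Pool.Agent.Helper38_HAM.Cl2
import Pool.Agent.Helper46_HAM.Pri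
import Pool.Agent.Helper48_HAM.Hcb
import Pool.Agent.Helper48_HAM.Inc
import Pool.Agent.Helper59_HAM.Cn3
import Pool.Agent.Helper59_HAM.Pai
import Pool.Agent.Helper93_HAM.Lin
import Pool.Agent.Helper93_HAM.Lpe
import Pool.Agent.Helper98_HAM.GLO
import Pool.Agent.Helper98_HAM.SUB

/-!
# HAM: the assembly of all modules
-/

namespace Pool.Agent.HAM.H43

open Pool.Agent.HAM

theorem hCYC : CycStmt := H50.cycm
theorem hCOM : ComStmt := H50.com
theorem hDEF : DefStmt := H65.def_thm hCYC hCOM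
theorem hCOL : ColStmt := H59.col
theorem hHAB : HabStmt := H46.hab
theorem hHPL : HplStmt := H47.hpl
theorem hISO : IsoStmt := H7.iso
theorem hEXI : ExiStmt := H72.exi
theorem hTWO : TwoStmt := H72.two
theorem hLGR : LgrStmt := H75.lgr
theorem hCRS : CrsStmt := H9.crs
theorem hTCO : TcoStmt := H39.tco
theorem hTCX : TcxStmt := H39.tcx
theorem hTEQ : TeqStmt := H20.teq
theorem hTPE : TpeStmt := H47.tpe hCRS hTCO hTCX
theorem hCON : ConStmt := H37.con hTCO hTCX hTPE
theorem hGUE : GueStmt := H37.gue hTCO hTCX hTPE hCON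
theorem hGAT : GatStmt := H26.gat hTCO hTCX hTPE hCON
theorem hFIL : FilStmt := H26.fil hTCO hTCX hTPE hCON
theorem hNOR : NorStmt := H25.nor
theorem hGLE : GleStmt := H25.gle
theorem hGRU : GruStmt := H66.gru
theorem hTAB : TabStmt := H66.tab
theorem hBIN : BinStmt := H81.bin
theorem hENC : EncStmt := H20.enc
theorem hSEQ : SeqStmt := H51.seq
theorem hVER : VerStmt := H4.ver
theorem hMEM : MemStmt := H51.mem hSEQ hVER
theorem hBO2 : Bo2Stmt := H63.bo2
theorem hDFA : DfaStmt := H63.dfa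
theorem hPAI : PaiStmt := H59P.pai
theorem hCN3 : Cn3Stmt := H59C.cn3
theorem hHCB : HcbStmt := H48.hcb
theorem hINC : IncStmt := H48.inc
theorem hINH : InhStmt := H27.inh
theorem hLIN : LinStmt := H93.lin
theorem hLPE : LpeStmt := H93.lpe
theorem hGLO : GloStmt := H98.glo
theorem hSUB : SubStmt := H98.sub
theorem hPRI : PriStmt := H46.pri hGRU hGLE
theorem hCL1 : Cl1Stmt := H38.cl1
theorem hCL2 : Cl2Stmt := H38.cl2

theorem hBOO : BooStmt := H64.boo hTCO hTCX hTPE hGAT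
theorem hUNI : UniStmt := H41.uni hTCO hTCX hTEQ hTPE hGAT hGUE hFIL hBOO
theorem hTIL : TilStmt := H4.til hUNI hCON hTCO hTCX hTPE hNOR
theorem hSTA : StaStmt := H64.sta
theorem hHIN : HinStmt := H64.hin hCYC
theorem hCNT : CntStmt := H75.cnt_thm hSTA
theorem hPLN : PlnStmt := H27.pln hCYC hCOM hSTA

theorem hCOR : CorStmt := cor hDEF hPAI hCOL hHAB hCN3 hHCB hHPL hISO hINH hINC hHIN hSTA hEXI hTWO
  hPLN hCNT hLGR hLIN hLPE
theorem hHRD : HrdStmt := hrd hCOR hTIL hGLO hGLE hPRI hTAB hSUB hBIN hENC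
theorem hCLO : CloStmt := clo hBO2 hDFA hCL1 hCL2 hBIN

end Pool.Agent.HAM.H43
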