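import Pool.Agent.Helper43_HAM.Defs
import Pool.Agent.Common_CookLevin.CookLevin

/-!
# Hamiltonian cycle counts modulo powers of two: auxiliary definitions
-/

namespace Pool.Agent.HAM

open Equiv

/-! ### Maps

The edges are the elements of `E`, the darts are the pairs `(e, b)`; `opp` exchanges the two darts
of an edge; the vertices are the cycles of `σ`. -/

abbrev Dart (E : Type) : Type := E × Bool

/-- the other dart of the edge -/
def opp {E : Type} (d : Dart E) : Dart E := (d.1, !d.2)

section Maps

variable {E : Type} [DecidableEq E]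

/-- exchange the two darts of each edge in `S` -/
def flip (S : Finset E) : Perm (Dart E) where
  toFun d := (d.1, if d.1 ∈ S then !d.2 else d.2)
  invFun d := (d.1, if d.1 ∈ S then !d.2 else d.2)
  left_inv := by intro d; by_cases h : d.1 ∈ S <;> simp [h]
  right_inv := by intro d; by_cases h : d.1 ∈ S <;> simp [h]

/-- the permutation of the state `S`; its cycles are the circuits of the state -/
def rho (σ : Perm (Dart E)) (S : Finset E) : Perm (Dart E) := flip S * σ

/-- connectedness by `σ` and the edges of `S` -/
def conn (σ : Perm (Dart E)) (S : Finset E) : Setoid (Dart E) :=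
  Relation.EqvGen.setoid fun x y => y = σ x ∨ y = flip S x

/-- number of connected components of the spanning subgraph with the edges of `S` -/
noncomputable def comp (σ : Perm (Dart E)) (S : Finset E) : ℕ := Nat.card (Quotient (conn σ S))

/-- `T` is (the support of) a cycle of `π` -/
def IsCycleOf {D : Type} (π : Perm D) (T : Set D) : Prop := ∃ x, T = {y | π.SameCycle x y}

/-- the number of pairs (state, circuit of the state) such that the circuit meets every edge -/
noncomputable def pairs (σ : Perm (Dart E)) : ℕ :=
  Nat.card {p : Finset E × Set (Dart E) //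
    IsCycleOf (rho σ p.1) p.2 ∧ ∀ e, (e, false) ∈ p.2 ∨ (e, true) ∈ p.2}

/-- the number of proper `3`-colourings of the vertices in which the two ends of `e₀` have the
colours `0` and `1` -/
noncomputable def colCount (σ : Perm (Dart E)) (e₀ : E) : ℕ :=
  Nat.card {χ : Dart E → Fin 3 // (∀ d, χ (σ d) = χ d) ∧ (∀ e, χ (e, false) ≠ χ (e, true)) ∧
    χ (e₀, false) = 0 ∧ χ (e₀, true) = 1}

end Maps

/-- the cubic bipartite graph of two permutations (of a hypermap) -/
def hgr {D : Type} (α σ : Perm D) : SimpleGraph (D × Bool) where
  Adj u v := (u.2 = false ∧ v.2 = true ∧ (v.1 = u.1 ∨ v.1 = α u.1 ∨ v.1 = σ u.1)) ∨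
    (v.2 = false ∧ u.2 = true ∧ (u.1 = v.1 ∨ u.1 = α v.1 ∨ u.1 = σ v.1))
  symm := ⟨fun _ _ h => h.symm⟩
  loopless := ⟨fun u h => by
    rcases h with h | h <;> exact absurd (h.1.symm.trans h.2.1) (by decide)⟩

section Maps

variable {E : Type} [DecidableEq E] [Fintype E]

/-- the flag graph (truncated medial graph) of a map -/
def gr (σ : Perm (Dart E)) : SimpleGraph (Dart E × Bool) := hgr (flip Finset.univ) σ

/-- connected and of genus `0` -/
def IsPlane (σ : Perm (Dart E)) : Prop :=
  comp σ Finset.univ = 1 ∧ cyc σ + cyc (rho σ Finset.univ) = Fintype.card E + 2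

/-- all states have the number of circuits of a plane map -/
def AllPlane (σ : Perm (Dart E)) : Prop :=
  ∀ S : Finset E, cyc (rho σ S) + cyc σ = S.card + 2 * comp σ S

/-- no vertex of degree one, no loops, and the map remains connected when a vertex is deleted -/
def TwoConn (σ : Perm (Dart E)) : Prop :=
  (∀ d, σ d ≠ d) ∧ (∀ d, ¬ σ.SameCycle d (opp d)) ∧
  ∀ d₀ x y, ¬ σ.SameCycle d₀ x → ¬ σ.SameCycle d₀ y →
    Relation.EqvGen (fun a b => ¬ σ.SameCycle d₀ a ∧ ¬ σ.SameCycle d₀ b ∧ (b = σ a ∨ b = opp a)) x y

end Maps

/-! ### Cube insertion -/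

section Ins

variable {V : Type}

/-- `G` with the vertex `x` (with the three neighbours `n 0`, `n 1`, `n 2`) replaced by a cube minus
a vertex: `x` is adjacent to `(i, false)`; `(i, false)` is adjacent to `(j, true)` for `i ≠ j`;
`(i, true)` is adjacent to `n i`. -/
def ins (G : SimpleGraph V) (x : V) (n : Fin 3 → V) : SimpleGraph (V ⊕ Fin 3 × Bool) where
  Adj
    | .inl u, .inl v => G.Adj u v ∧ u ≠ x ∧ v ≠ x
    | .inl u, .inr (i, b) => (b = false ∧ u = x) ∨ (b = true ∧ u = n i)
    | .inr (i, b), .inl u => (b = false ∧ u = x) ∨ (b = true ∧ u = n i)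
    | .inr (i, b), .inr (j, c) => b ≠ c ∧ i ≠ j
  symm := ⟨by
    rintro (u | ⟨i, b⟩) (v | ⟨j, c⟩) h
    · exact ⟨h.1.symm, h.2.2, h.2.1⟩
    · exact h
    · exact h
    · exact ⟨h.1.symm, h.2.symm⟩⟩
  loopless := ⟨by
    rintro (u | ⟨i, b⟩) h
    · exact h.1.ne rfl
    · exact h.1 rfl⟩

/-- `G` is the graph of a plane hypermap; `x` is the vertex `(d₀, false)` and `n i` are its
neighbours -/
def HPlane (G : SimpleGraph V) (x : V) (n : Fin 3 → V) : Prop :=
  ∃ (D : Type) (_ : Fintype D) (α σ : Perm D) (d₀ : D) (φ : G ≃g hgr α σ),
    φ x = (d₀, false) ∧ φ (n 0) = (d₀, true) ∧ φ (n 1) = (α d₀, true) ∧ φ (n 2) = (σ d₀, true) ∧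
    (∀ d, α d ≠ d) ∧ (∀ d, σ d ≠ d) ∧ (∀ d, α d ≠ σ d) ∧
    cyc α + cyc σ + cyc (α⁻¹ * σ) = Fintype.card D + 2

end Ins

/-! ### Words -/

/-- Operations on the cyclically ordered list of open edges: `rot k` rotates the list; `vtx i a b`
adds a vertex which absorbs the open edges at the places `i, …, i + a - 1` and creates `b` new open
edges instead. -/
inductive Op
  | rot (k : ℕ)
  | vtx (i a b : ℕ)
  deriving DecidableEq

/-- state of the construction: the open edges, the number of edges created so far, and the list of
the vertices (incoming edges, outgoing edges); edges have labels in `I` -/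
structure St (I : Type) where
  /-- open edges -/
  fr : List I
  /-- number of edges created -/
  m : ℕ
  /-- vertices: incoming edges, outgoing edges -/
  vs : List (List I × List I)

/-- one operation; `new j` is the label of the `j`-th edge which is created -/
def step {I : Type} (new : ℕ → I) (s : St I) : Op → St I
  | .rot k => ⟨s.fr.rotate k, s.m, s.vs⟩
  | .vtx i a b => ⟨s.fr.take i ++ (List.range' s.m b).map new ++ s.fr.drop (i + a), s.m + b,
      s.vs ++ [((s.fr.drop i).take a, (List.range' s.m b).map new)]⟩

/-- perform all operations of a word -/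
def run {I : Type} (new : ℕ → I) (s : St I) (w : List Op) : St I := w.foldl (step new) s

/-- The word `w` leads from `n` open edges to `n'` open edges; each of its vertices has at least
one incoming and one outgoing edge and does not absorb all open edges. -/
def legal : List Op → ℕ → ℕ → Prop
  | [], n, n' => n = n'
  | .rot _ :: w, n, n' => legal w n n'
  | .vtx i a b :: w, n, n' => 1 ≤ a ∧ 1 ≤ b ∧ i + a ≤ n ∧ a < n ∧ legal w (n - a + b) n'

/-- the first vertex with two open edges, the second vertex at the first of these with two more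
edges, the word `w`, and a last vertex absorbing all `a` open edges -/
def closed (w : List Op) (a : ℕ) : List Op := .vtx 0 0 2 :: .vtx 0 1 2 :: (w ++ [.vtx 0 a 0])

/-- the final state of a closed word; the edges are numbered in the order of their creation -/
def fin (w : List Op) (a : ℕ) : St ℕ := run id ⟨[], 0, []⟩ (closed w a)

/-- the cyclic list of the darts at a vertex -/
def cl {I : Type} : List I × List I → List (I × Bool)
  | ([], outs) => outs.map fun e => (e, false)
  | (e :: ins, outs) =>
    (e, true) :: (outs.map (fun e => (e, false)) ++ ins.reverse.map (fun e => (e, true)))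

/-- pairs of consecutive elements of a cyclic list -/
def cpairs {I : Type} (l : List I) : List (I × I) := l.zip (l.rotate 1)

/-- numerical label of a dart -/
def nm {m : ℕ} (x : Dart (Fin m)) : ℕ × Bool := (x.1.val, x.2)

/-- `σ` is the rotation of the map with the vertices `vs` and the edges `0, …, m - 1` -/
def Realises (m : ℕ) (vs : List (List ℕ × List ℕ)) (σ : Perm (Dart (Fin m))) : Prop :=
  ∀ x y, σ x = y ↔ ∃ v ∈ vs, (nm x, nm y) ∈ cpairs (cl v)

/-- static properties of the list of vertices of a closed word -/
structure Static (m : ℕ) (vs : List (List ℕ × List ℕ)) : Prop where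
  two : 3 ≤ vs.length
  outs : vs.flatMap Prod.snd = List.range m
  ins : (vs.flatMap Prod.fst).Perm (List.range m)
  lt : ∀ t e, e ∈ (vs.getD t ([], [])).1 → ∃ t' < t, e ∈ (vs.getD t' ([], [])).2
  first : vs[0]? = some ([], [0, 1])
  second : vs[1]? = some ([0], [2, 3])
  last : 2 ≤ (vs.getD (vs.length - 1) ([], [])).1.length ∧ (vs.getD (vs.length - 1) ([], [])).2 = []
  inner : ∀ t, 0 < t → t + 1 < vs.length →
    (vs.getD t ([], [])).1 ≠ [] ∧ (vs.getD t ([], [])).2 ≠ []
  jump : ∀ t, 0 < t → t + 1 < vs.length → ∃ e t₁ t₂, t₁ < t ∧ t < t₂ ∧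
    e ∈ (vs.getD t₁ ([], [])).2 ∧ e ∈ (vs.getD t₂ ([], [])).1

/-! ### The number of colourings modulo `2` -/

/-- `app w F u`: the sum of `F u'` over all ways to colour the vertices of the word `w`, where `u`
is the list of the colours of the inner ends of the open edges in the beginning, and `u'` the list
in the end. -/
def app : List Op → (List (Fin 3) → ZMod 2) → List (Fin 3) → ZMod 2
  | [], F, u => F u
  | .rot k :: w, F, u => app w F (u.rotate k)
  | .vtx i a b :: w, F, u => ∑ v : Fin 3, if v ∈ (u.drop i).take a then 0 else
      app w F (u.take i ++ List.replicate b v ++ u.drop (i + a))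

/-- no open edges left -/
def Fend (u : List (Fin 3)) : ZMod 2 := if u = [] then 1 else 0

/-! ### The edge lists of the cubic graphs -/

/-- number of the vertex `(x, s)` of the flag graph -/
def vn (x : ℕ × Bool) (s : Bool) : ℕ := 4 * x.1 + 2 * x.2.toNat + s.toNat

/-- the edges of the flag graph coming from an edge of the map -/
def ee (e : ℕ) : List (ℕ × ℕ) :=
  [(vn (e, false) false, vn (e, false) true), (vn (e, true) false, vn (e, true) true),
   (vn (e, false) false, vn (e, true) true), (vn (e, true) false, vn (e, false) true)]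

/-- the edges of the flag graph coming from a vertex of the map -/
def ve (v : List ℕ × List ℕ) : List (ℕ × ℕ) :=
  (cpairs (cl v)).map fun p => (vn p.1 false, vn p.2 true)

/-- all edges except those at the vertex `0` -/
def base (m : ℕ) (vs : List (List ℕ × List ℕ)) : List (ℕ × ℕ) :=
  ((List.range m).flatMap ee ++ vs.flatMap ve).filter fun p => p.1 ≠ 0

/-- the new edges of a cube insertion; the new vertices are `N, …, N + 5` -/
def piece (N : ℕ) (c : Fin 3 → ℕ) : List (ℕ × ℕ) :=
  [(N + 3, c 0), (N + 4, c 1), (N + 5, c 2),
   (N + 3, N + 1), (N + 3, N + 2), (N + 4, N), (N + 4, N + 2), (N + 5, N), (N + 5, N + 1)]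

/-- the three neighbours of the vertex `0` after `j` cube insertions -/
def cur (m : ℕ) : ℕ → Fin 3 → ℕ
  | 0 => ![1, 3, 5]
  | j + 1 => ![4 * m + 6 * j, 4 * m + 6 * j + 1, 4 * m + 6 * j + 2]

/-- the edges at the vertex `0` -/
def tri (c : Fin 3 → ℕ) : List (ℕ × ℕ) := [(0, c 0), (0, c 1), (0, c 2)]

/-- the edges of the first `j` cube insertions -/
def pieces (m : ℕ) : ℕ → List (ℕ × ℕ)
  | 0 => []
  | j + 1 => pieces m j ++ piece (4 * m + 6 * j) (cur m j)

/-- the edge list of the flag graph with `j` cube insertions at the vertex `0` -/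
def elist (j m : ℕ) (vs : List (List ℕ × List ℕ)) : List (ℕ × ℕ) :=
  base m vs ++ pieces m j ++ tri (cur m j)

/-! ### Networks -/

/-- continuations: the sum over the colour of any open edge vanishes -/
def EvenF (F : List (Fin 3) → ZMod 2) : Prop := ∀ l r, ∑ v : Fin 3, F (l ++ v :: r) = 0

/-- move a word to the right -/
def shift (k : ℕ) (w : List Op) : List Op := w.map fun o => match o with
  | .rot j => .rot j
  | .vtx i a b => .vtx (i + k) a b

/-- no rotations -/
def NoRot (w : List Op) : Prop := ∀ k, Op.rot k ∉ w

/-- The word `w` transforms the wires `U` (functions of the configuration `ω : Ω`) into the wires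
`U'`; the possible outcomes for the configuration `ω` are the `ω'` with `π ω' = ω`. -/
def Net {Ω Ω' : Type} [Fintype Ω'] [DecidableEq Ω] (π : Ω' → Ω) (U : List (Ω → Fin 3))
    (U' : List (Ω' → Fin 3)) (w : List Op) : Prop :=
  NoRot w ∧ legal w U.length U'.length ∧
  ∀ F, EvenF F → ∀ (l r : List (Fin 3)) (ω : Ω),
    app (shift l.length w) F (l ++ (U.map (· ω) ++ r)) =
      ∑ ω' : Ω', if π ω' = ω then F (l ++ (U'.map (· ω') ++ r)) else 0

/-- there is such a word -/
def Tr {Ω Ω' : Type} [Fintype Ω'] [DecidableEq Ω] (π : Ω' → Ω) (U : List (Ω → Fin 3))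
    (U' : List (Ω' → Fin 3)) : Prop := ∃ w, Net π U U' w

/-- a constant wire -/
def cw {Ω : Type} (c : Fin 3) : Ω → Fin 3 := fun _ => c

/-- the wires which carry the reference colours -/
def refs {Ω : Type} : List (Ω → Fin 3) := [cw 1, cw 2, cw 2]

/-- the wire which carries a bit -/
def bit {Ω : Type} (x : Ω → Bool) : Ω → Fin 3 := fun ω => if x ω then 2 else 0

/-- crossing of two wires -/
def cross : List Op := [.vtx 0 1 3, .vtx 2 2 1, .vtx 1 2 2, .vtx 0 2 1]

/-! ### Helical systems -/

/-- A helical cellular automaton: every cell sees the cell before it (west) and, after the first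
row, the cell one row before it (north).  In the first row the successor state is chosen
nondeterministically. -/
structure HSys (A : Type) where
  /-- states -/
  Q : Type
  /-- finitely many states -/
  fin : Fintype Q
  /-- equality of states is decidable -/
  dec : DecidableEq Q
  /-- the state before the first cell -/
  init : Q
  /-- possible next states in the first row; letter, state to the west, new state -/
  row : A → Q → Q → Prop
  /-- next state after the first row; state to the west, state to the north -/
  next : Q → Q → Q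
  /-- accepting states -/
  acc : Q → Prop

/-- `s` is an accepting run: the first row belongs to the word `v`, and `M` more cells follow -/
def HSys.IsRun {A : Type} (H : HSys A) (v : List A) (M : ℕ) (s : List H.Q) : Prop :=
  s.length = v.length + M ∧
  (∀ i a, v[i]? = some a → H.row a ((H.init :: s).getD i H.init) (s.getD i H.init)) ∧
  (∀ j < M, s.getD (v.length + j) H.init =
    H.next ((H.init :: s).getD (v.length + j) H.init) (s.getD j H.init)) ∧
  H.acc ((H.init :: s).getD (v.length + M) H.init)

/-- number of accepting runs -/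
noncomputable def HSys.count {A : Type} (H : HSys A) (v : List A) (M : ℕ) : ℕ :=
  Nat.card {s : List H.Q // H.IsRun v M s}

/-- words for the tiles of a helical system; `k` is the number of wires which carry a state -/
structure Tiles (A : Type) where
  /-- number of wires of a state -/
  k : ℕ
  /-- from the wires `1, 1, 0` to the initial state -/
  start : List Op
  /-- tile of the first row -/
  row : A → List Op
  /-- tile of the other rows -/
  reg : List Op
  /-- check that the last state is accepting -/
  fin : List Op
  /-- delete a state -/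
  drop : List Op
  /-- number of edges created by `start` -/
  js : ℕ
  /-- number of edges created by `row a` and by `reg` -/
  J : ℕ
  /-- number of edges created by `fin` -/
  jf : ℕ
  /-- number of edges created by `drop` -/
  jd : ℕ

/-- The word `w` creates `J` edges and leads from `n` to `n'` open edges; in the end the open edges
are the `n'` edges created last, in the order of their creation. -/
def Normal (w : List Op) (n n' J : ℕ) : Prop :=
  NoRot w ∧ legal w n n' ∧ n' ≤ J ∧ Even J ∧
  ∀ (I : Type) (new : ℕ → I) (fr : List I) (vs : List (List I × List I)) (m : ℕ),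
    fr.length = n → (run new ⟨fr, m, vs⟩ w).fr = (List.range' (m + J - n') n').map new ∧
      (run new ⟨fr, m, vs⟩ w).m = m + J

/-- all tiles are in normal form -/
structure Tiles.Good {A : Type} (T : Tiles A) : Prop where
  hk : 2 ≤ T.k
  start : Normal T.start 3 T.k T.js
  row : ∀ a, Normal (T.row a) T.k (2 * T.k) T.J
  reg : Normal T.reg (2 * T.k) (2 * T.k) T.J
  fin : Normal T.fin T.k 3 T.jf
  drop : Normal T.drop (3 + T.k) 3 T.jd

open Classical in
/-- the tiles implement the helical system `H` -/
def Tiles.Sem {A : Type} (T : Tiles A) (H : HSys A) : Prop :=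
  ∃ blk : H.Q → List (Fin 3), (∀ q, (blk q).length = T.k) ∧
  ∀ F, EvenF F → ∀ l r : List (Fin 3),
    (app (shift l.length T.start) F (l ++ ([1, 1, 0] ++ r)) = F (l ++ (blk H.init ++ r))) ∧
    (∀ a s, letI := H.fin; app (shift l.length (T.row a)) F (l ++ (blk s ++ r)) =
      ∑ t : H.Q, if H.row a s t then F (l ++ (blk t ++ (blk t ++ r))) else 0) ∧
    (∀ s t, app (shift l.length T.reg) F (l ++ (blk s ++ (blk t ++ r))) =
      F (l ++ (blk (H.next s t) ++ (blk (H.next s t) ++ r)))) ∧
    (∀ s, app (shift l.length T.fin) F (l ++ (blk s ++ r)) =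
      if H.acc s then F (l ++ ([1, 2, 2] ++ r)) else 0) ∧
    (∀ s, app (shift l.length T.drop) F (l ++ ([1, 2, 2] ++ (blk s ++ r))) =
      F (l ++ ([1, 2, 2] ++ r)))

/-- the word for the whole run -/
def Tiles.word {A : Type} (T : Tiles A) (v : List A) (M : ℕ) : List Op :=
  T.start ++ (v.flatMap (fun a => T.row a ++ [.rot T.k]) ++
    ((List.replicate M (T.reg ++ [.rot T.k])).flatten ++
      (T.fin ++ ((List.replicate v.length T.drop).flatten ++ [.vtx 0 1 1, .vtx 1 2 1]))))

/-! ### Printing -/

open Pool.Agent.Common_CookLevin (CNF LLit formula)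

/-- the clauses with two literals, as pairs of variables -/
def pairsOf (F : CNF) : List (ℕ × ℕ) := F.map fun C => ((C.getD 0 (0, true)).1, (C.getD 1 (0, true)).1)

/-- every clause consists of two positive literals -/
def TwoPos (T : List (List LLit)) : Prop := ∀ C ∈ T, ∃ p q : LLit, C = [p, q] ∧ p.sign = true ∧ q.sign = true

end Pool.Agent.HAM
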