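import Mathlib
import Pool.Agent.Helper32_HCK.Defs

/-!
# Hamiltonian cycle counts modulo powers of two in Barnette graphs: definitions (MP_f63292_lc)
-/

namespace Pool.Agent.HAM

open Equiv
open Pool.Agent.Helper32_HCK (DecisionProblem)

/-! ### Graphs -/

section Graphs

variable {V : Type}

/-- `h(G)`: the number of Hamiltonian cycles of `G`, each cycle counted once as a subgraph.  A
Hamiltonian cycle is a connected spanning subgraph in which every vertex has degree two. -/
noncomputable def hamCount (G : SimpleGraph V) : ℕ :=
  Nat.card {H : SimpleGraph V // H ≤ G ∧ H.Connected ∧ ∀ v, (H.neighborSet v).ncard = 2}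

/-- every vertex has degree three -/
def IsCubic (G : SimpleGraph V) : Prop := ∀ v, (G.neighborSet v).ncard = 3

/-- bipartite -/
def IsBip (G : SimpleGraph V) : Prop := ∃ c : V → Bool, ∀ u v, G.Adj u v → c u ≠ c v

/-- `3`-vertex-connected: at least four vertices, and the graph remains connected when at most two
vertices are deleted -/
def ThreeConnected (G : SimpleGraph V) : Prop :=
  4 ≤ Nat.card V ∧ ∀ s : Finset V, s.card ≤ 2 → (G.induce {v | v ∉ s}).Connected

/-- the number of cycles of a permutation (fixed points are cycles of length one) -/
noncomputable def cyc {D : Type} (π : Perm D) : ℕ :=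
  Nat.card (Quotient (Perm.SameCycle.setoid π))

/-- reversal of the darts (oriented edges) of a graph -/
def dartSymm (G : SimpleGraph V) : Perm G.Dart where
  toFun d := d.symm
  invFun d := d.symm
  left_inv d := d.symm_symm
  right_inv d := d.symm_symm

/-- Planarity of a connected graph: there is a rotation system of genus `0`, i.e. a permutation
`ρ` of the darts whose cycles are the sets of darts leaving a vertex, such that the number of
vertices minus the number of edges plus the number of faces is `2`; the faces are the cycles of
`ρ ∘ reversal`. -/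
def IsPlanar (G : SimpleGraph V) : Prop :=
  ∃ ρ : Perm G.Dart, (∀ d, (ρ d).fst = d.fst) ∧ (∀ d d' : G.Dart, d.fst = d'.fst → ρ.SameCycle d d') ∧
    Nat.card V + cyc (ρ * dartSymm G) = G.edgeSet.ncard + 2

end Graphs

/-! ### Encoding of graphs -/

/-- `v` occurs in the edge list -/
def Occurs (l : List (ℕ × ℕ)) (v : ℕ) : Prop := ∃ p ∈ l, v = p.1 ∨ v = p.2

/-- the graph given by an edge list; its vertices are the numbers which occur in the list -/
def graphOf (l : List (ℕ × ℕ)) : SimpleGraph {v : ℕ // Occurs l v} where
  Adj u v := u ≠ v ∧ ((u.1, v.1) ∈ l ∨ (v.1, u.1) ∈ l)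
  symm := ⟨fun _ _ h => ⟨h.1.symm, h.2.symm⟩⟩
  loopless := ⟨fun _ h => h.1 rfl⟩

/-- letters for writing down edge lists -/
inductive GLetter
  | edge | vertex | tick
  deriving DecidableEq

instance : Fintype GLetter := ⟨{.edge, .vertex, .tick}, by intro x; cases x <;> decide⟩

/-- The word encoding an edge list: for each edge the letter `edge` followed by its two end points;
an end point is written as the letter `vertex` followed by its number in unary. -/
def encodeEdges (l : List (ℕ × ℕ)) : List GLetter :=
  l.flatMap fun p => .edge :: (.vertex :: List.replicate p.1 .tick) ++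
    (.vertex :: List.replicate p.2 .tick)

/-- An edge list of a cubic bipartite polyhedral graph: the vertices are `0, 1, …, N - 1` for some
`N`, every edge is listed exactly once, and the graph is cubic, bipartite, planar and
`3`-connected. -/
structure IsBarnette (l : List (ℕ × ℕ)) : Prop where
  initial : ∀ v, Occurs l v → ∀ u < v, Occurs l u
  once : l.Pairwise fun p q => p ≠ q ∧ p ≠ q.swap
  loopless : ∀ p ∈ l, p.1 ≠ p.2
  cubic : IsCubic (graphOf l)
  bipartite : IsBip (graphOf l)
  connected : ThreeConnected (graphOf l)
  planar : IsPlanar (graphOf l)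

/-- reading a letter of an encoded edge list, from right to left -/
def decStep : GLetter → ℕ × List ℕ × List (ℕ × ℕ) → ℕ × List ℕ × List (ℕ × ℕ)
  | .tick, (k, c, F) => (k + 1, c, F)
  | .vertex, (k, c, F) => (0, k :: c, F)
  | .edge, (_, c, F) => (0, [], (c.getD 0 0, c.getD 1 0) :: F)

theorem dec_ticks (c : List ℕ) (F : List (ℕ × ℕ)) : ∀ n : ℕ,
    (List.replicate n GLetter.tick).foldr decStep (0, c, F) = (n, c, F)
  | 0 => rfl
  | n + 1 => by
    rw [List.replicate_succ, List.foldr_cons, dec_ticks c F n]
    rfl

theorem dec_encode : ∀ l : List (ℕ × ℕ), (encodeEdges l).foldr decStep (0, [], []) = (0, [], l)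
  | [] => rfl
  | p :: l => by
    have ih := dec_encode l
    have h : encodeEdges (p :: l) = .edge :: (.vertex :: (List.replicate p.1 .tick ++
        (.vertex :: (List.replicate p.2 .tick ++ encodeEdges l)))) := by
      simp [encodeEdges]
    rw [h, List.foldr_cons, List.foldr_cons, List.foldr_append, List.foldr_cons, List.foldr_append,
      ih, dec_ticks]
    have h2 : decStep .vertex (p.2, [], l) = (0, [p.2], l) := rfl
    rw [h2, dec_ticks]
    rfl

theorem encodeEdges_injective : Function.Injective encodeEdges := by
  intro l l' h
  have h1 := dec_encode l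
  rw [h, dec_encode l'] at h1
  exact (Prod.mk.inj (Prod.mk.inj h1).2).2.symm

/-- The problem: given a cubic bipartite polyhedral graph `G`, is the number of its Hamiltonian
cycles not divisible by `k`? -/
noncomputable def barnette (k : ℕ) : DecisionProblem where
  Inst := {l : List (ℕ × ℕ) // IsBarnette l}
  Alph := GLetter
  alphFintype := inferInstance
  enc := fun l => encodeEdges l.1
  enc_injective := encodeEdges_injective.comp Subtype.val_injective
  Yes := fun l => ¬ k ∣ hamCount (graphOf l.1)

/-! ### Complexity classes -/

/-- `P` is in the class `Mod_k P`: for some finite alphabet `B`, some polynomial `q` and some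
polynomial-time computable verifier `V`, the instance `x` is a yes-instance iff the number of
certificates of length at most `q |x|` which are accepted by `V` is not divisible by `k`. -/
def InMod (k : ℕ) (P : DecisionProblem) : Prop :=
  ∃ (B : Type) (_ : Fintype B) (V : P.Inst × List B → Bool) (q : Polynomial ℕ),
    Nonempty (Turing.TM2ComputableInPolyTime P.encPair Computability.encodeBool V) ∧
    ∀ x, P.Yes x ↔
      ¬ k ∣ Nat.card {c : List B // c.length ≤ q.eval (P.enc x).length ∧ V (x, c) = true}

end Pool.Agent.HAM
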