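import Pool.Agent.Helper43_HAM.Stmts2

/-!
# HAM: the final theorem from the statements of the modules
-/

namespace Pool.Agent.HAM

open Turing Computability
open Pool.Agent.Helper32_HCK (DecisionProblem languageProblem PolyReduces)

/-- `P` is complete for the class `Mod_k P` under polynomial-time many-one reductions; `Mod_2 P` is
parity-P. -/
def ModComplete (k : ℕ) (P : DecisionProblem) : Prop :=
  InMod k P ∧ ∀ L : Set (List Bool), InMod k (languageProblem L) → PolyReduces (languageProblem L) P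

/-- the language `L` can be decided in polynomial time -/
def InP (L : Set (List Bool)) : Prop :=
  ∃ f : List Bool → Bool, Nonempty (TM2ComputableInPolyTime (languageProblem L).enc encodeBool f) ∧
    ∀ w, w ∈ L ↔ f w = true

/-- the divisibility problem `D_k` for cubic bipartite polyhedral graphs can be solved in polynomial
time -/
def DInP (k : ℕ) : Prop :=
  ∃ f : (barnette k).Inst → Bool,
    Nonempty (TM2ComputableInPolyTime (barnette k).enc encodeBool f) ∧
    ∀ x : (barnette k).Inst, f x = true ↔ k ∣ hamCount (graphOf x.1)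

theorem inP_of_reduces (hBO2 : Bo2Stmt) (k : ℕ) (h : DInP k) (L : Set (List Bool))
    (hL : PolyReduces (languageProblem L) (barnette k)) : InP L := by
  obtain ⟨f, hf, hf'⟩ := h
  obtain ⟨g, ⟨hg⟩, hg'⟩ := hL
  obtain ⟨hn⟩ := hBO2 _ _ _ f f (fun a _ => !a) hf hf
  refine ⟨fun w => !f (g w), Pool.Agent.Helper32_Poly.TM2ComputableInPolyTime.comp hg hn, ?_⟩
  intro w
  have h1 : w ∈ L ↔ ¬ k ∣ hamCount (graphOf (g w).1) := hg' w
  rw [h1, ← hf' (g w)]
  simp

theorem main (hHRD : HrdStmt) (hMEM : MemStmt) (hCLO : CloStmt) (hBO2 : Bo2Stmt) (n : ℕ)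
    (hn : 2 ≤ n) :
    ModComplete 2 (barnette (2 ^ n)) ∧ ModComplete (2 ^ n) (barnette (2 ^ n)) ∧
    (DInP (2 ^ n) → ∀ L : Set (List Bool), InMod 2 (languageProblem L) → InP L) :=
  ⟨⟨hCLO n _ (hMEM _), hHRD n hn _ (Or.inl rfl)⟩, ⟨hMEM _, hHRD n hn _ (Or.inr rfl)⟩,
    fun h L hL => inP_of_reduces hBO2 _ h L (hHRD n hn _ (Or.inl rfl) L hL)⟩

end Pool.Agent.HAM
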