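import Pool.Agent.Helper43_HAM.Stmts

/-!
# Hamiltonian cycle counts modulo powers of two: `Mod_{2^n} P ⊆ Mod_2 P`
-/

namespace Pool.Agent.HAM

open Turing Computability
open Pool.Agent.Helper32_HCK (DecisionProblem)

/-! ## Part I: closure -/

/-- BO2: Boolean combinations of two polynomial-time predicates. -/
def Bo2Stmt : Prop :=
  ∀ (α Γ : Type) (ea : α → List Γ) (f g : α → Bool) (op : Bool → Bool → Bool),
    Nonempty (TM2ComputableInPolyTime ea encodeBool f) →
    Nonempty (TM2ComputableInPolyTime ea encodeBool g) →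
    Nonempty (TM2ComputableInPolyTime ea encodeBool (fun x => op (f x) (g x)))

/-- DFA: finite automata run in polynomial time. -/
def DfaStmt : Prop :=
  ∀ (α Γ S : Type) [Fintype Γ] [Fintype S] (ea : α → List Γ) (δ : S → Γ → S) (s₀ : S)
    (acc : S → Bool),
    Nonempty (TM2ComputableInPolyTime ea encodeBool (fun x => acc ((ea x).foldl δ s₀)))

/-- CL1: increasing lists and binomial coefficients. -/
def Cl1Stmt : Prop :=
  ∀ (X : Type) [LinearOrder X] (S : Set X) (K : ℕ), S.Finite →
    Nat.card {l : List X // l.Pairwise (· < ·) ∧ (∀ x ∈ l, x ∈ S) ∧ 1 ≤ l.length ∧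
      l.length ≤ K} = ∑ j ∈ Finset.Icc 1 K, (S.ncard).choose j

/-- letters for tuples of at most `K` words, written in parallel -/
abbrev TL (K : ℕ) (B : Type) : Type := Fin K ⊕ (Fin K → Option B)

/-- the `i`-th word of a tuple of words -/
def track {K : ℕ} {B : Type} (i : Fin K) (c : List (TL K B)) : List B :=
  c.flatMap fun a => match a with
    | .inl _ => []
    | .inr g => (g i).toList

/-- the encoding of a nonempty list of at most `K` words: the number of the words (minus one),
then the letters in parallel -/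
def encT (K : ℕ) (hK : 0 < K) (B : Type) (l : List (List B)) : List (TL K B) :=
  .inl ⟨(l.length - 1) % K, Nat.mod_lt _ hK⟩ ::
    (List.range ((l.map List.length).foldr max 0)).map fun t => .inr fun i => (l.getD i.val [])[t]?

/-- CL2: an automaton for the encodings of increasing lists of words. -/
def Cl2Stmt : Prop :=
  ∀ (K : ℕ) (hK : 0 < K) (B : Type) [Fintype B] [LinearOrder B],
    (∃ (S : Type) (_ : Fintype S) (δ : S → TL K B → S) (s₀ : S) (acc : S → Bool),
      ∀ c : List (TL K B), acc (c.foldl δ s₀) = true ↔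
        ∃ l : List (List B), 1 ≤ l.length ∧ l.length ≤ K ∧ l.Pairwise (· < ·) ∧
          c = encT K hK B l) ∧
    (∀ l l' : List (List B), 1 ≤ l.length → l.length ≤ K → 1 ≤ l'.length → l'.length ≤ K →
      encT K hK B l = encT K hK B l' → l = l') ∧
    ∀ l : List (List B), 1 ≤ l.length → l.length ≤ K →
      (∀ i : Fin K, track i (encT K hK B l) = l.getD i.val []) ∧
      ∀ N, ((encT K hK B l).length ≤ N + 1 ↔ ∀ c ∈ l, c.length ≤ N)

/-- CLO: `Mod_{2^n} P ⊆ Mod_2 P` (uses BO2, DFA, CL1, CL2, BIN). -/
def CloStmt : Prop := ∀ (n : ℕ) (P : DecisionProblem), InMod (2 ^ n) P → InMod 2 P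

end Pool.Agent.HAM
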